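import Pool.Agent.H751R2.LHY.Defs

/-!
# LHY: general `L²` functions and trigonometric polynomials (tasks T7, T8; helper728)
-/

open MeasureTheory UnitAddTorus
open scoped ComplexConjugate ENNReal

namespace Pool.Agent.H751R2.LHY.Gn

noncomputable section

section GenAux
variable {N : ℕ}

/-- currying as an equivalence -/
def uncE (N : ℕ) : (Fin N → Mom) ≃ (Fin N × Fin 3 → ℤ) := (Equiv.curry (Fin N) (Fin 3) ℤ).symm

theorem uncE_apply (M : Fin N → Mom) : uncE N M = unc M := rfl

theorem unc_inj {M M' : Fin N → Mom} (h : unc M = unc M') : M = M' := (uncE N).injective h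

/-- the finite box -/
def bx (N R : ℕ) : Finset (Fin N → Mom) := Fintype.piFinset (fun _ : Fin N => boxM R)

theorem mem_boxM {R : ℕ} {n : Mom} : n ∈ boxM R ↔ ∀ a, |n a| ≤ R := by
  simp [boxM, Fintype.mem_piFinset, Finset.mem_Icc, abs_le]

theorem mem_bx {R : ℕ} {M : Fin N → Mom} : M ∈ bx N R ↔ ∀ i a, |M i a| ≤ R := by
  simp [bx, Fintype.mem_piFinset, mem_boxM]

theorem bx_tendsto (N : ℕ) : Filter.Tendsto (bx N) Filter.atTop Filter.atTop := by
  apply Filter.tendsto_atTop_finset_of_monotone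
  · intro R R' h M hM
    rw [mem_bx] at *
    intro i a
    exact (hM i a).trans (by exact_mod_cast h)
  · intro M
    refine ⟨∑ i, ∑ a, (M i a).natAbs, ?_⟩
    rw [mem_bx]
    intro i a
    rw [Int.abs_eq_natAbs]
    norm_cast
    calc (M i a).natAbs ≤ ∑ a, (M i a).natAbs :=
          Finset.single_le_sum (f := fun a => (M i a).natAbs) (fun _ _ => Nat.zero_le _)
            (Finset.mem_univ a)
      _ ≤ ∑ i, ∑ a, (M i a).natAbs :=
          Finset.single_le_sum (f := fun i => ∑ a, (M i a).natAbs) (fun _ _ => Nat.zero_le _)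
            (Finset.mem_univ i)

theorem tendsto_bx {f : (Fin N → Mom) → ℝ} {s : ℝ} (h : HasSum f s) :
    Filter.Tendsto (fun R : ℕ => ∑ M ∈ Fintype.piFinset (fun _ : Fin N => boxM R), f M)
      Filter.atTop (nhds s) := by
  have h1 : Filter.Tendsto (fun S : Finset (Fin N → Mom) => ∑ M ∈ S, f M) Filter.atTop
    (nhds s) := by simpa [HasSum] using h
  exact h1.comp (bx_tendsto N)

theorem coef_toLp {ψ : Cfg N → ℂ} (hψ : MemLp ψ 2) (k : Fin N × Fin 3 → ℤ) :
    mFourierCoeff (hψ.toLp ψ) k = mFourierCoeff ψ k := by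
  unfold mFourierCoeff
  apply integral_congr_ae
  filter_upwards [hψ.coeFn_toLp] with x hx
  rw [hx]

theorem coef_hasSum {ψ : Cfg N → ℂ} (hψ : MemLp ψ 2) :
    HasSum (fun M : Fin N → Mom => ‖coef ψ M‖ ^ 2) (∫ x, ‖ψ x‖ ^ 2) := by
  have h := hasSum_sq_mFourierCoeff (hψ.toLp ψ)
  have h1 : (∫ t, ‖(hψ.toLp ψ) t‖ ^ 2) = ∫ x, ‖ψ x‖ ^ 2 := by
    apply integral_congr_ae
    filter_upwards [hψ.coeFn_toLp] with x hx
    rw [hx]
  rw [h1] at h
  simp only [coef_toLp] at h
  exact (uncE N).hasSum_iff.2 h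

theorem int_mFourier {d : Type*} [Fintype d] (k : d → ℤ) :
    ∫ x : UnitAddTorus d, mFourier k x = if k = 0 then 1 else 0 := by
  classical
  have h := (orthonormal_iff_ite.1 (orthonormal_mFourier (d := d))) 0 k
  rw [ContinuousMap.inner_toLp] at h
  simp only [mFourier_zero] at h
  simpa [eq_comm] using h

theorem cont_mF {d : Type*} [Fintype d] (k : d → ℤ) : Continuous (fun x => mFourier k x) :=
  (mFourier k).continuous

theorem trig_cont (B : Finset Mom) (a : (Fin N → Mom) → ℂ) : Continuous (trig B a) := by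
  unfold trig
  exact continuous_finsetSum _ fun M _ => continuous_const.mul (cont_mF _)

theorem cont_integrable {d : Type*} [Fintype d] {E : Type*} [NormedAddCommGroup E]
    {f : UnitAddTorus d → E} (hf : Continuous f) : Integrable f :=
  hf.integrable_of_hasCompactSupport (HasCompactSupport.of_compactSpace f)

theorem coef_trig (B : Finset Mom) (a : (Fin N → Mom) → ℂ) (M : Fin N → Mom) :
    coef (trig B a) M = if M ∈ Fintype.piFinset (fun _ : Fin N => B) then a M else 0 := by
  classical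
  unfold coef mFourierCoeff trig
  have h1 : ∀ x : Cfg N, mFourier (-unc M) x •
      ∑ M' ∈ Fintype.piFinset (fun _ : Fin N => B), a M' * mFourier (unc M') x =
      ∑ M' ∈ Fintype.piFinset (fun _ : Fin N => B), a M' * mFourier (-unc M + unc M') x := by
    intro x
    rw [smul_eq_mul, Finset.mul_sum]
    refine Finset.sum_congr rfl fun M' _ => ?_
    rw [mFourier_add]; ring
  simp only [h1]
  rw [integral_finsetSum _ (fun M' _ => (cont_integrable (cont_mF _)).const_mul _)]
  have h2 : ∀ M' : Fin N → Mom, ∫ x : Cfg N, a M' * mFourier (-unc M + unc M') x =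
      if M = M' then a M' else 0 := by
    intro M'
    rw [integral_const_mul, int_mFourier]
    by_cases h : M = M'
    · subst h; simp
    · have : ¬ (-unc M + unc M' = 0) := by
        intro h'
        exact h (unc_inj (by
          have := neg_add_eq_zero.1 h'
          exact this))
      simp [h, this]
  simp only [h2]
  rw [Finset.sum_ite_eq]

end GenAux

section L
variable {N : ℕ}

theorem nrm_tendsto {ψ : Cfg N → ℂ} (hψ : MemLp ψ 2) :
    Filter.Tendsto (fun R : ℕ => nrm (boxM R) (coef ψ)) Filter.atTop (nhds (∫ x, ‖ψ x‖ ^ 2)) := by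
  have h := coef_hasSum hψ
  exact tendsto_bx h

/-- energies of trigonometric polynomials -/
theorem trig_memLp (B : Finset Mom) (a : (Fin N → Mom) → ℂ) : MemLp (trig B a) 2 :=
  (trig_cont B a).memLp_of_hasCompactSupport (HasCompactSupport.of_compactSpace _)

theorem trig_norm (B : Finset Mom) (a : (Fin N → Mom) → ℂ) :
    ∫ x, ‖trig B a x‖ ^ 2 = nrm B a := by
  classical
  have h := coef_hasSum (trig_memLp B a)
  have h1 : HasSum (fun M : Fin N → Mom => ‖coef (trig B a) M‖ ^ 2) (nrm B a) := by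
    unfold nrm
    have : ∀ M ∈ Fintype.piFinset (fun _ : Fin N => B), ‖a M‖ ^ 2 = ‖coef (trig B a) M‖ ^ 2 := by
      intro M hM
      rw [coef_trig, if_pos hM]
    rw [Finset.sum_congr rfl this]
    apply hasSum_sum_of_ne_finset_zero
    intro M hM
    rw [coef_trig, if_neg hM]; simp
  exact h.unique h1

theorem sumq_nonneg {q : ℝ} (hq : 0 < q) (M : Fin N → Mom) : 0 ≤ ∑ i, q * sq (M i) :=
  Finset.sum_nonneg fun _ _ => mul_nonneg hq.le (Finset.sum_nonneg fun _ _ => sq_nonneg _)

theorem kinF_tendsto {q : ℝ} (hq : 0 < q) {ψ : Cfg N → ℂ} (_hψ : MemLp ψ 2)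
    (hk : kinE q ψ ≠ ⊤) :
    Filter.Tendsto (fun R : ℕ => kinF (boxM R) (coef ψ) q) Filter.atTop
      (nhds (kinE q ψ).toReal) := by
  have h0 : ∀ M : Fin N → Mom, 0 ≤ (∑ i, q * sq (M i)) * ‖coef ψ M‖ ^ 2 := fun M =>
    mul_nonneg (sumq_nonneg hq M) (sq_nonneg _)
  have h1 : HasSum (fun M : Fin N → Mom => (∑ i, q * sq (M i)) * ‖coef ψ M‖ ^ 2)
      (kinE q ψ).toReal := by
    have hs := ENNReal.summable_toReal hk
    simp only [ENNReal.toReal_ofReal (h0 _)] at hs
    have := hs.hasSum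
    unfold kinE
    rw [ENNReal.tsum_toReal_eq (fun _ => ENNReal.ofReal_ne_top)]
    simp only [ENNReal.toReal_ofReal (h0 _)]
    exact this
  exact tendsto_bx h1

theorem trig_kinE (B : Finset Mom) (a : (Fin N → Mom) → ℂ) {q : ℝ} (hq : 0 < q) :
    kinE q (trig B a) = ENNReal.ofReal (kinF B a q) := by
  classical
  unfold kinE kinF
  rw [tsum_eq_sum (s := Fintype.piFinset (fun _ : Fin N => B))]
  · rw [ENNReal.ofReal_sum_of_nonneg]
    · refine Finset.sum_congr rfl fun M hM => ?_
      rw [coef_trig, if_pos hM]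
    · intro M _
      exact mul_nonneg (sumq_nonneg hq M) (sq_nonneg _)
  · intro M hM
    rw [coef_trig, if_neg hM]; simp

theorem occ_le_occE {ψ : Cfg N → ℂ} (hψ : MemLp ψ 2) (P : Mom → Prop) [DecidablePred P]
    (R : ℕ) :
    ∑ n ∈ (boxM R).filter P, occ (boxM R) (coef ψ) n ≤ (occE ψ P).toReal := by
  classical
  unfold occ
  rw [Finset.sum_comm]
  have h1 : ∀ M ∈ Fintype.piFinset (fun _ : Fin N => boxM R),
      ∑ n ∈ (boxM R).filter P, ((Finset.univ.filter (fun i => M i = n)).card : ℝ) * ‖coef ψ M‖ ^ 2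
        = ((Finset.univ.filter (fun i => P (M i))).card : ℝ) * ‖coef ψ M‖ ^ 2 := by
    intro M hM
    rw [← Finset.sum_mul]
    congr 1
    have h2 := Finset.card_eq_sum_card_fiberwise (s := Finset.univ.filter (fun i => P (M i)))
      (t := (boxM R).filter P) (f := fun i => M i) (by
        intro i hi
        simp only [Finset.coe_filter, Finset.mem_univ, true_and, Set.mem_ofPred_eq] at hi ⊢
        exact ⟨Fintype.mem_piFinset.1 hM i, hi⟩)
    rw [h2]
    push_cast
    refine Finset.sum_congr rfl fun n hn => ?_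
    congr 2
    ext i
    simp only [Finset.mem_filter, Finset.mem_univ, true_and]
    constructor
    · intro h
      exact ⟨by rw [h]; exact (Finset.mem_filter.1 hn).2, h⟩
    · intro h; exact h.2
  rw [Finset.sum_congr rfl h1]
  have h0 : ∀ M : Fin N → Mom,
      0 ≤ ((Finset.univ.filter (fun i => P (M i))).card : ℝ) * ‖coef ψ M‖ ^ 2 := fun M =>
    mul_nonneg (Nat.cast_nonneg _) (sq_nonneg _)
  have hs : Summable (fun M : Fin N → Mom =>
      ((Finset.univ.filter (fun i => P (M i))).card : ℝ) * ‖coef ψ M‖ ^ 2) := by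
    refine Summable.of_nonneg_of_le h0 (fun M => ?_) ((coef_hasSum hψ).summable.mul_left (N : ℝ))
    refine mul_le_mul_of_nonneg_right ?_ (sq_nonneg _)
    have := Finset.card_filter_le (Finset.univ : Finset (Fin N)) (fun i => P (M i))
    rw [Finset.card_univ, Fintype.card_fin] at this
    exact_mod_cast this
  unfold occE
  rw [ENNReal.tsum_toReal_eq (fun _ => ENNReal.ofReal_ne_top)]
  simp only [ENNReal.toReal_ofReal (h0 _)]
  exact hs.sum_le_tsum _ (fun M _ => h0 M)

/-! ### potential energy -/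

theorem half_sum (f : Fin N → Fin N → ℝ) (hf : ∀ i j, f i j = f j i) :
    ∑ i : Fin N, ∑ j ∈ Finset.univ.erase i, f i j =
      2 * ∑ i : Fin N, ∑ j ∈ Finset.univ.filter (fun j => i < j), f i j := by
  classical
  have h1 : ∀ i : Fin N, ∑ j ∈ Finset.univ.erase i, f i j =
      ∑ j ∈ Finset.univ.filter (fun j => i < j), f i j +
      ∑ j ∈ Finset.univ.filter (fun j => j < i), f i j := by
    intro i
    rw [← Finset.sum_union]
    · refine Finset.sum_congr ?_ fun _ _ => rfl
      ext j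
      simp only [Finset.mem_erase, Finset.mem_univ, and_true, Finset.mem_union, Finset.mem_filter,
        true_and]
      constructor
      · intro h; rcases lt_trichotomy i j with h' | h' | h'
        · exact Or.inl h'
        · exact absurd h'.symm h
        · exact Or.inr h'
      · rintro (h | h)
        · exact h.ne'
        · exact h.ne
    · rw [Finset.disjoint_filter]
      intro j _ h h'
      exact absurd (h.trans h') (lt_irrefl _)
  simp only [h1, Finset.sum_add_distrib]
  have h2 : ∑ i : Fin N, ∑ j ∈ Finset.univ.filter (fun j => j < i), f i j =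
      ∑ i : Fin N, ∑ j ∈ Finset.univ.filter (fun j => i < j), f i j := by
    rw [Finset.sum_comm' (t' := Finset.univ)
      (s' := fun j => Finset.univ.filter (fun i => j < i)) (by
        intro i j; simp)]
    refine Finset.sum_congr rfl fun i _ => Finset.sum_congr rfl fun j _ => hf j i
  rw [h2]; ring

theorem pos_meas (i : Fin N) : Measurable (fun x : Cfg N => pos x i) :=
  measurable_pi_lambda _ fun a => measurable_pi_apply (i, a)

theorem Wdiff_meas {W : T3 → ℝ} (hWm : Measurable W) (i j : Fin N) :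
    Measurable (fun x : Cfg N => W (pos x i - pos x j)) :=
  hWm.comp ((pos_meas i).sub (pos_meas j))

theorem potE_eq {W : T3 → ℝ} (hW : Pot W) {ψ : Cfg N → ℂ}
    (hint : ∀ i j : Fin N, i ≠ j → Integrable (fun x : Cfg N => W (pos x i - pos x j) * ‖ψ x‖ ^ 2)) :
    potE (fun y => ENNReal.ofReal (W y)) ψ =
      ENNReal.ofReal (∑ i : Fin N, ∑ j ∈ Finset.univ.filter (fun j => i < j),
        ∫ x : Cfg N, W (pos x i - pos x j) * ‖ψ x‖ ^ 2) := by
  classical
  unfold potE
  have h1 : ∀ x : Cfg N, (∑ i : Fin N, ∑ j ∈ Finset.univ.filter (fun j => i < j),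
      ENNReal.ofReal (W (pos x i - pos x j))) * ENNReal.ofReal (‖ψ x‖ ^ 2) =
      ENNReal.ofReal (∑ i : Fin N, ∑ j ∈ Finset.univ.filter (fun j => i < j),
        W (pos x i - pos x j) * ‖ψ x‖ ^ 2) := by
    intro x
    rw [Finset.sum_mul, ENNReal.ofReal_sum_of_nonneg]
    · refine Finset.sum_congr rfl fun i _ => ?_
      rw [Finset.sum_mul, ENNReal.ofReal_sum_of_nonneg]
      · refine Finset.sum_congr rfl fun j _ => ?_
        rw [ENNReal.ofReal_mul (hW.nonneg _)]
      · intro j _; exact mul_nonneg (hW.nonneg _) (sq_nonneg _)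
    · intro i _
      exact Finset.sum_nonneg fun j _ => mul_nonneg (hW.nonneg _) (sq_nonneg _)
  simp only [h1]
  have hi : ∀ i : Fin N, ∀ j ∈ Finset.univ.filter (fun j => i < j),
      Integrable (fun x : Cfg N => W (pos x i - pos x j) * ‖ψ x‖ ^ 2) := by
    intro i j hj
    exact hint i j (Finset.mem_filter.1 hj).2.ne
  rw [← ofReal_integral_eq_lintegral_ofReal]
  · congr 1
    rw [integral_finsetSum]
    · refine Finset.sum_congr rfl fun i _ => ?_
      rw [integral_finsetSum _ (hi i)]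
    · intro i _
      exact integrable_finsetSum _ (hi i)
  · exact integrable_finsetSum _ fun i _ => integrable_finsetSum _ (hi i)
  · exact Filter.Eventually.of_forall fun x => Finset.sum_nonneg fun i _ =>
      Finset.sum_nonneg fun j _ => mul_nonneg (hW.nonneg _) (sq_nonneg _)

theorem potF_eq {W : T3 → ℝ} (hW : Pot W) (B : Finset Mom) (a : (Fin N → Mom) → ℂ) :
    potF B a W = ∑ i : Fin N, ∑ j ∈ Finset.univ.filter (fun j => i < j),
        ∫ x : Cfg N, W (pos x i - pos x j) * ‖trig B a x‖ ^ 2 := by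
  unfold potF
  rw [half_sum (fun i j => ∫ x : Cfg N, W (pos x i - pos x j) * ‖trig B a x‖ ^ 2)]
  · ring
  · intro i j
    refine integral_congr_ae (Filter.Eventually.of_forall fun x => ?_)
    show W (pos x i - pos x j) * ‖trig B a x‖ ^ 2 = W (pos x j - pos x i) * ‖trig B a x‖ ^ 2
    rw [← hW.even (pos x i - pos x j), neg_sub]

theorem coef_sub {f g : Cfg N → ℂ} (hf : MemLp f 2) (hg : MemLp g 2) (M : Fin N → Mom) :
    coef (fun x => f x - g x) M = coef f M - coef g M := by
  unfold coef mFourierCoeff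
  have hi : ∀ {f : Cfg N → ℂ}, MemLp f 2 → Integrable (fun x => mFourier (-unc M) x • f x) := by
    intro f hf
    have h1 : Integrable f := hf.integrable (by norm_num)
    simp only [smul_eq_mul]
    refine h1.bdd_mul (c := 1) (cont_mF _).aestronglyMeasurable
      (Filter.Eventually.of_forall fun x => ?_)
    exact ((mFourier (-unc M)).norm_coe_le_norm x).trans (le_of_eq mFourier_norm)
  rw [← integral_sub (hi hf) (hi hg)]
  refine integral_congr_ae (Filter.Eventually.of_forall fun x => ?_)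
  simp only [smul_sub]

theorem diff_norm {ψ : Cfg N → ℂ} (hψ : MemLp ψ 2) (R : ℕ) :
    ∫ x, ‖trig (boxM R) (coef ψ) x - ψ x‖ ^ 2 = (∫ x, ‖ψ x‖ ^ 2) - nrm (boxM R) (coef ψ) := by
  classical
  have h1 := coef_hasSum ((trig_memLp (boxM R) (coef ψ)).sub hψ)
  have h2 := coef_hasSum hψ
  have h3 : HasSum (fun M : Fin N → Mom =>
      if M ∈ Fintype.piFinset (fun _ : Fin N => boxM R) then ‖coef ψ M‖ ^ 2 else 0)
      (nrm (boxM R) (coef ψ)) := by
    unfold nrm
    have : ∀ M ∈ Fintype.piFinset (fun _ : Fin N => boxM R), ‖coef ψ M‖ ^ 2 =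
      if M ∈ Fintype.piFinset (fun _ : Fin N => boxM R) then ‖coef ψ M‖ ^ 2 else 0 := by
      intro M hM
      rw [if_pos hM]
    rw [Finset.sum_congr rfl this]
    apply hasSum_sum_of_ne_finset_zero
    intro M hM
    rw [if_neg hM]
  have h4 := h2.sub h3
  refine h1.unique ?_
  refine h4.congr_fun ?_
  intro M
  have h5 : coef (trig (boxM R) (coef ψ) - ψ) M = coef (trig (boxM R) (coef ψ)) M - coef ψ M :=
    coef_sub (trig_memLp _ _) hψ M
  rw [h5, coef_trig]
  split_ifs <;> simp

theorem conv_w {w : Cfg N → ℝ} (hwm : Measurable w) {C : ℝ} (h0 : ∀ x, 0 ≤ w x)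
    (hC : ∀ x, w x ≤ C) {ψ : Cfg N → ℂ} (hψ : MemLp ψ 2) :
    Filter.Tendsto (fun R : ℕ => ∫ x, w x * ‖trig (boxM R) (coef ψ) x‖ ^ 2) Filter.atTop
      (nhds (∫ x, w x * ‖ψ x‖ ^ 2)) := by
  have hC0 : 0 ≤ C := (h0 (fun _ => 0)).trans (hC _)
  set I := ∫ x, ‖ψ x‖ ^ 2 with hI
  have hI0 : 0 ≤ I := integral_nonneg fun x => sq_nonneg _
  set δ : ℕ → ℝ := fun R => ∫ x, ‖trig (boxM R) (coef ψ) x - ψ x‖ ^ 2 with hδ
  have hδ0 : Filter.Tendsto δ Filter.atTop (nhds 0) := by
    have h1 : δ = fun R => I - nrm (boxM R) (coef ψ) := by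
      funext R; exact diff_norm hψ R
    rw [h1]
    have h2 := (tendsto_const_nhds (x := I)).sub (nrm_tendsto hψ)
    rw [← hI, sub_self] at h2
    exact h2
  have hsq : ∀ {g : Cfg N → ℂ}, MemLp g 2 → Integrable (fun x => ‖g x‖ ^ 2) := fun hg =>
    hg.integrable_norm_pow (by norm_num)
  have hw : ∀ {g : Cfg N → ℂ}, MemLp g 2 → Integrable (fun x => w x * ‖g x‖ ^ 2) := by
    intro g hg
    refine (hsq hg).bdd_mul (c := C) hwm.aestronglyMeasurable
      (Filter.Eventually.of_forall fun x => ?_)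
    rw [Real.norm_eq_abs, abs_of_nonneg (h0 x)]; exact hC x
  have key : ∀ η : ℝ, 0 < η → ∀ R : ℕ,
      |(∫ x, w x * ‖trig (boxM R) (coef ψ) x‖ ^ 2) - ∫ x, w x * ‖ψ x‖ ^ 2| ≤
        C * ((1 + 1 / η) * δ R + η * I) := by
    intro η hη R
    have ht := trig_memLp (boxM R) (coef ψ)
    rw [← integral_sub (hw ht) (hw hψ), ← Real.norm_eq_abs]
    have hgi : Integrable (fun x => C * ((1 + 1 / η) * ‖trig (boxM R) (coef ψ) x - ψ x‖ ^ 2
        + η * ‖ψ x‖ ^ 2)) :=
      (((hsq (ht.sub hψ)).const_mul _).add ((hsq hψ).const_mul _)).const_mul _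
    have hle := norm_integral_le_of_norm_le (f := fun x => w x * ‖trig (boxM R) (coef ψ) x‖ ^ 2 -
      w x * ‖ψ x‖ ^ 2) hgi (Filter.Eventually.of_forall fun x => by
        set t := trig (boxM R) (coef ψ) x
        have h1 : ‖t‖ ≤ ‖ψ x‖ + ‖t - ψ x‖ := by
          have := norm_add_le (ψ x) (t - ψ x)
          simpa using this
        have h2 : ‖ψ x‖ ≤ ‖t‖ + ‖t - ψ x‖ := by
          have := norm_add_le t (ψ x - t)
          rw [norm_sub_rev] at this
          simpa using this
        have hb := norm_nonneg (ψ x)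
        have hd := norm_nonneg (t - ψ x)
        have htn := norm_nonneg t
        have h3 : |‖t‖ ^ 2 - ‖ψ x‖ ^ 2| ≤ ‖t - ψ x‖ ^ 2 + 2 * (‖ψ x‖ * ‖t - ψ x‖) := by
          rw [abs_le]; constructor <;> nlinarith
        have h4 : 2 * (‖ψ x‖ * ‖t - ψ x‖) ≤ 1 / η * ‖t - ψ x‖ ^ 2 + η * ‖ψ x‖ ^ 2 := by
          have h5 : 0 ≤ (‖t - ψ x‖ - η * ‖ψ x‖) ^ 2 / η := by positivity
          have h6 : (‖t - ψ x‖ - η * ‖ψ x‖) ^ 2 / η =
              1 / η * ‖t - ψ x‖ ^ 2 + η * ‖ψ x‖ ^ 2 - 2 * (‖ψ x‖ * ‖t - ψ x‖) := by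
            field_simp; ring
          linarith
        rw [← mul_sub, norm_mul, Real.norm_eq_abs, Real.norm_eq_abs, abs_of_nonneg (h0 x)]
        calc w x * |‖t‖ ^ 2 - ‖ψ x‖ ^ 2|
            ≤ C * ((1 + 1 / η) * ‖t - ψ x‖ ^ 2 + η * ‖ψ x‖ ^ 2) := by
              apply mul_le_mul (hC x) _ (abs_nonneg _) hC0
              linarith)
    refine hle.trans (le_of_eq ?_)
    rw [integral_const_mul, integral_add, integral_const_mul, integral_const_mul]
    · exact (hsq (ht.sub hψ)).const_mul _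
    · exact (hsq hψ).const_mul _
  rw [Metric.tendsto_atTop]
  intro ε hε
  set η := ε / (2 * (C * I + 1)) with hη
  have hCI : 0 ≤ C * I := mul_nonneg hC0 hI0
  have hη0 : 0 < η := by positivity
  have hη1 : C * (η * I) < ε / 2 + ε / 2 * 0 + 0 ∨ C * (η * I) ≤ ε / 2 := by
    right
    rw [hη]
    have : C * (ε / (2 * (C * I + 1)) * I) = ε / 2 * (C * I / (C * I + 1)) := by
      field_simp
    rw [this]
    have h1 : C * I / (C * I + 1) ≤ 1 := by
      rw [div_le_one (by linarith)]; linarith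
    nlinarith
  have hη2 : C * (η * I) ≤ ε / 2 := by
    rcases hη1 with h | h
    · linarith
    · exact h
  have hlim : Filter.Tendsto (fun R => C * ((1 + 1 / η) * δ R)) Filter.atTop (nhds 0) := by
    have := (hδ0.const_mul (1 + 1 / η)).const_mul C
    simpa using this
  obtain ⟨R0, hR0⟩ := (Metric.tendsto_atTop.1 hlim) (ε / 2) (by linarith)
  refine ⟨R0, fun R hR => ?_⟩
  have h1 := hR0 R hR
  rw [Real.dist_eq, sub_zero] at h1
  rw [Real.dist_eq]
  have h2 := key η hη0 R
  have h3 := (abs_lt.1 h1).2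
  have h4 : C * ((1 + 1 / η) * δ R + η * I) = C * ((1 + 1 / η) * δ R) + C * (η * I) := by ring
  linarith

theorem potF_tendsto {W : T3 → ℝ} (hW : Pot W) (hWm : Measurable W) {C : ℝ} (hC : ∀ y, W y ≤ C)
    {ψ : Cfg N → ℂ} (hψ : MemLp ψ 2) :
    Filter.Tendsto (fun R : ℕ => potF (boxM R) (coef ψ) W) Filter.atTop
      (nhds (potE (fun y => ENNReal.ofReal (W y)) ψ).toReal) := by
  have hi : ∀ i j : Fin N, i ≠ j →
      Integrable (fun x : Cfg N => W (pos x i - pos x j) * ‖ψ x‖ ^ 2) := by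
    intro i j _
    have h1 : Integrable (fun x => ‖ψ x‖ ^ 2) := hψ.integrable_norm_pow (by norm_num)
    refine h1.bdd_mul (c := C) (Wdiff_meas hWm i j).aestronglyMeasurable
      (Filter.Eventually.of_forall fun x => ?_)
    rw [Real.norm_eq_abs, abs_of_nonneg (hW.nonneg _)]; exact hC _
  rw [potE_eq hW hi, ENNReal.toReal_ofReal]
  · simp only [potF_eq hW]
    refine tendsto_finsetSum _ fun i _ => tendsto_finsetSum _ fun j _ => ?_
    exact conv_w (w := fun x => W (pos x i - pos x j)) (Wdiff_meas hWm i j)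
      (fun x => hW.nonneg _) (fun x => hC _) hψ
  · exact Finset.sum_nonneg fun i _ => Finset.sum_nonneg fun j _ =>
      integral_nonneg fun x => mul_nonneg (hW.nonneg _) (sq_nonneg _)

/-- integrability of the pair potential against a trigonometric polynomial, from the measure
preserving property of `x ↦ x_i - x_j` -/
theorem trig_pot_int {W : T3 → ℝ} (hW : Pot W) (B : Finset Mom) (a : (Fin N → Mom) → ℂ)
    {i j : Fin N} (hmp : MeasurePreserving (fun x : Cfg N => pos x i - pos x j) volume volume) :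
    Integrable (fun x : Cfg N => W (pos x i - pos x j) * ‖trig B a x‖ ^ 2) := by
  have h1 : Integrable (fun x : Cfg N => W (pos x i - pos x j)) :=
    hmp.integrable_comp_of_integrable hW.int
  have hc : Continuous (fun x : Cfg N => ‖trig B a x‖ ^ 2) := (trig_cont B a).norm.pow 2
  obtain ⟨C, hC⟩ := isCompact_univ.exists_bound_of_continuousOn (f := fun x : Cfg N =>
    ‖trig B a x‖ ^ 2) hc.continuousOn
  exact h1.mul_bdd (c := C) hc.aestronglyMeasurable
    (Filter.Eventually.of_forall fun x => hC x (Set.mem_univ x))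

theorem trig_potE_of (hmp : ∀ i j : Fin N, i ≠ j →
      MeasurePreserving (fun x : Cfg N => pos x i - pos x j) volume volume)
    (B : Finset Mom) (a : (Fin N → Mom) → ℂ) {W : T3 → ℝ} (hW : Pot W) :
    potE (fun y => ENNReal.ofReal (W y)) (trig B a) = ENNReal.ofReal (potF B a W) := by
  rw [potE_eq hW (fun i j hij => trig_pot_int hW B a (hmp i j hij)), potF_eq hW]

end L

end

end Pool.Agent.H751R2.LHY.Gn
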