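import Pool.Agent.H728R2.LHY.Gen

/-!
# LHY: general `L²` functions (task T7) and trigonometric polynomials (part of task T8); helper728
-/

open MeasureTheory UnitAddTorus
open scoped ComplexConjugate ENNReal

namespace Pool.Agent.H751R2.LHY

variable {N : ℕ}

theorem nrm_tendsto {ψ : Cfg N → ℂ} (hψ : MemLp ψ 2) :
    Filter.Tendsto (fun R : ℕ => nrm (boxM R) (coef ψ)) Filter.atTop (nhds (∫ x, ‖ψ x‖ ^ 2)) :=
  Gn.nrm_tendsto hψ

theorem kinF_tendsto {q : ℝ} (hq : 0 < q) {ψ : Cfg N → ℂ} (hψ : MemLp ψ 2)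
    (hk : kinE q ψ ≠ ⊤) :
    Filter.Tendsto (fun R : ℕ => kinF (boxM R) (coef ψ) q) Filter.atTop
      (nhds (kinE q ψ).toReal) :=
  Gn.kinF_tendsto hq hψ hk

theorem potF_tendsto {W : T3 → ℝ} (hW : Pot W) (hWm : Measurable W) {C : ℝ} (hC : ∀ y, W y ≤ C)
    {ψ : Cfg N → ℂ} (hψ : MemLp ψ 2) :
    Filter.Tendsto (fun R : ℕ => potF (boxM R) (coef ψ) W) Filter.atTop
      (nhds (potE (fun y => ENNReal.ofReal (W y)) ψ).toReal) :=
  Gn.potF_tendsto hW hWm hC hψ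

theorem occ_le_occE {ψ : Cfg N → ℂ} (hψ : MemLp ψ 2) (P : Mom → Prop) [DecidablePred P]
    (R : ℕ) :
    ∑ n ∈ (boxM R).filter P, occ (boxM R) (coef ψ) n ≤ (occE ψ P).toReal :=
  Gn.occ_le_occE hψ P R

theorem trig_memLp (B : Finset Mom) (a : (Fin N → Mom) → ℂ) : MemLp (trig B a) 2 :=
  Gn.trig_memLp B a

theorem trig_norm (B : Finset Mom) (a : (Fin N → Mom) → ℂ) :
    ∫ x, ‖trig B a x‖ ^ 2 = nrm B a :=
  Gn.trig_norm B a

theorem trig_kinE (B : Finset Mom) (a : (Fin N → Mom) → ℂ) {q : ℝ} (hq : 0 < q) :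
    kinE q (trig B a) = ENNReal.ofReal (kinF B a q) :=
  Gn.trig_kinE B a hq

end Pool.Agent.H751R2.LHY
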