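import Pool.Agent.H728R2.LHY.Lim
import Pool.Agent.H464R2.LHY.Int

/-!
# LHY: potential energy of trigonometric polynomials (task T8; helper728)
-/

open MeasureTheory UnitAddTorus
open scoped ComplexConjugate ENNReal

namespace Pool.Agent.H751R2.LHY

theorem trig_potE {N : ℕ} (B : Finset Mom) (a : (Fin N → Mom) → ℂ) {W : T3 → ℝ} (hW : Pot W)
    (_hWm : Measurable W) :
    potE (fun y => ENNReal.ofReal (W y)) (trig B a) = ENNReal.ofReal (potF B a W) :=
  Gn.trig_potE_of (fun _ _ hij => mp_diff hij) B a hW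

end Pool.Agent.H751R2.LHY
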